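import Mathlib

set_option autoImplicit false

namespace Pool.Agent.Results.MP_d3aff2_co.Four

open Quaternion Classical

/-- Euclidean 4-space -/
abbrev E : Type := EuclideanSpace ℝ (Fin 4)

/-- distinguishing colouring for the full isometry group -/
def Dist {k : ℕ} (c : E → Fin k) : Prop :=
  ∀ g : E ≃ᵢ E, (∀ x, c (g x) = c x) → g = IsometryEquiv.refl E

/-- word in quaternions and their conjugates -/
def pq {R I : Type} [CommRing R] (q : I → ℍ[R]) (L : List (I × Bool)) : ℍ[R] :=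
  (L.map fun l => cond l.2 (q l.1) (star (q l.1))).prod

/-- change of coefficients -/
def qm {R S : Type} [CommRing R] [CommRing S] (φ : R →+* S) (q : ℍ[R]) : ℍ[S] :=
  ⟨φ q.re, φ q.imI, φ q.imJ, φ q.imK⟩

theorem pq_cons {R I : Type} [CommRing R] (q : I → ℍ[R]) (l : I × Bool) (L : List (I × Bool)) :
    pq q (l :: L) = cond l.2 (q l.1) (star (q l.1)) * pq q L := by simp [pq]

theorem qm_pq {R S I : Type} [CommRing R] [CommRing S] (φ : R →+* S) (q : I → ℍ[R])
    (L : List (I × Bool)) : qm φ (pq q L) = pq (fun i => qm φ (q i)) L := by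
  induction L with
  | nil => ext <;> simp [pq, qm]
  | cons l L ih =>
    rw [pq_cons, pq_cons, ← ih]
    obtain ⟨i, b⟩ := l
    cases b <;> ext <;> simp [qm]

/-- action on the complex plane squared -/
noncomputable def act (q : ℍ[ℂ]) (v : ℂ × ℂ) : ℂ × ℂ :=
  ((q.re + q.imI * Complex.I) * v.1 + (q.imJ + q.imK * Complex.I) * v.2,
    (-q.imJ + q.imK * Complex.I) * v.1 + (q.re - q.imI * Complex.I) * v.2)

theorem act_mul (p q : ℍ[ℂ]) (v : ℂ × ℂ) : act (p * q) v = act p (act q v) := by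
  have := Complex.I_mul_I
  ext <;> simp only [act, re_mul, imI_mul, imJ_mul, imK_mul] <;> grind

/-- a rank one element -/
noncomputable def rk (α β : ℂ) : ℍ[ℂ] :=
  ⟨(β - α) / 2, -Complex.I * (β + α) / 2, (-1 - α * β) / 2, -Complex.I * (α * β - 1) / 2⟩

theorem act_rk {I : Type} (s : I × Bool → ℂ) (l : I × Bool) (x y : ℂ) :
    act (cond l.2 (rk (s (l.1, true)) (s (l.1, false))) (star (rk (s (l.1, true)) (s (l.1, false)))))
      (x, y) = (cond l.2 1 (-1) * (s (l.1, !l.2) * x - y),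
        cond l.2 1 (-1) * (s (l.1, !l.2) * x - y) * s l) := by
  have := Complex.I_mul_I
  obtain ⟨i, b⟩ := l
  cases b <;> ext <;> simp [act, rk] <;> grind

theorem nz {I : Type} (s : I × Bool → ℂ) (hs : Function.Injective s) (L : List (I × Bool)) :
    ∀ l, FreeGroup.IsReduced (l :: L) → ∃ a : ℂ, a ≠ 0 ∧
      act (pq (fun i => rk (s (i, true)) (s (i, false))) (l :: L)) (0, 1) = (a, a * s l) := by
  induction L with
  | nil =>
    intro l _
    rw [pq_cons, pq, List.map_nil, List.prod_nil, mul_one, act_rk]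
    exact ⟨_, by cases l.2 <;> simp, rfl⟩
  | cons l' L ih =>
    intro l h
    rw [FreeGroup.isReduced_cons_cons] at h
    obtain ⟨a, a1, a2⟩ := ih l' h.2
    rw [pq_cons, act_mul, a2, act_rk]
    refine ⟨_, mul_ne_zero (by cases l.2 <;> simp) fun e => ?_, rfl⟩
    have := hs (mul_left_cancel₀ a1 (by linear_combination e) : s (l.1, !l.2) = s l')
    have := h.1
    grind

theorem free {I : Type} (t : I × Fin 4 → ℝ) (ht : AlgebraicIndependent ℚ t) (l : I × Bool)
    (L : List (I × Bool)) (h : FreeGroup.IsReduced (l :: L)) (r : ℝ) :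
    r • pq (fun i => (⟨t (i, 0), t (i, 1), t (i, 2), t (i, 3)⟩ : ℍ)) (l :: L) ≠ 1 := by
  intro e
  let X : I → ℍ[MvPolynomial (I × Fin 4) ℚ] := fun i =>
    ⟨.X (i, 0), .X (i, 1), .X (i, 2), .X (i, 3)⟩
  have h1 := qm_pq (MvPolynomial.aeval t).toRingHom X (l :: L)
  have r0 : r ≠ 0 := by
    rintro rfl
    simp at e
  have e1 := congrArg QuaternionAlgebra.imJ e
  have e2 := congrArg QuaternionAlgebra.imK e
  simp only [qm, X, AlgHom.toRingHom_eq_coe, RingHom.coe_coe, MvPolynomial.aeval_X] at h1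
  rw [← h1] at e1 e2
  simp only [imJ_smul, imK_smul, imJ_one, imK_one, smul_eq_mul, mul_eq_zero, r0, false_or] at e1 e2
  have e1 := ht.eq_zero_of_aeval_eq_zero _ e1
  have e2 := ht.eq_zero_of_aeval_eq_zero _ e2
  let s : I × Bool → ℂ := fun l => t (l.1, cond l.2 0 1)
  obtain ⟨a, a1, a2⟩ := nz s (fun x y e => by
    have := ht.injective (Complex.ofReal_injective e)
    obtain ⟨i, b⟩ := x
    obtain ⟨j, c⟩ := y
    cases b <;> cases c <;> simp_all) L l h
  let v : I × Fin 4 → ℂ := fun p => let z := rk (s (p.1, true)) (s (p.1, false))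
    ![z.re, z.imI, z.imJ, z.imK] p.2
  have h2 := qm_pq (MvPolynomial.aeval v).toRingHom X (l :: L)
  have : (fun i => qm (MvPolynomial.aeval v).toRingHom (X i)) =
      fun i => rk (s (i, true)) (s (i, false)) := by
    funext i
    ext <;> simp [qm, X, v]
  rw [← this, ← h2] at a2
  have := congrArg Prod.fst a2
  simp only [act, qm, X, e1, e2] at this
  exact a1 (by simpa using this.symm)

theorem indep : ∃ t : Finset ℍ × Fin 4 → ℝ, AlgebraicIndependent ℚ t := by
  obtain ⟨s, hs⟩ := exists_isTranscendenceBasis ℚ ℝ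
  have : Nonempty s := by
    by_contra h
    rw [not_nonempty_iff] at h
    have := hs.isEmpty_iff_isAlgebraic.1 h
    have := Algebra.IsAlgebraic.cardinalMk_le_max ℚ ℝ
    simp only [Cardinal.mk_real, Cardinal.mk_eq_aleph0, max_self] at this
    exact absurd this (not_le.2 Cardinal.aleph0_lt_continuum)
  have h := hs.lift_cardinalMk_eq_max_lift
  simp only [Cardinal.mk_real, Cardinal.lift_id, Cardinal.mk_eq_aleph0] at h
  have h2 : Cardinal.continuum ≤ Cardinal.mk s := by
    by_contra c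
    have := Cardinal.aleph0_lt_continuum
    exact absurd h (max_lt (max_lt this (not_le.1 c)) this).ne'
  have : Infinite ℍ := Infinite.of_injective _ (Quaternion.coe_injective (R := ℝ))
  obtain ⟨f⟩ := (Cardinal.le_def (Finset ℍ × Fin 4) s).1 (by
    refine le_trans (le_of_eq ?_) h2
    simp only [Cardinal.mk_prod, Cardinal.lift_id, Cardinal.mk_finset_of_infinite,
      Cardinal.mk_quaternion, Cardinal.mk_real, Cardinal.mk_fin]
    rw [Cardinal.power_nat_eq Cardinal.aleph0_le_continuum (by norm_num)]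
    simp)
  exact ⟨_, hs.1.comp f f.injective⟩

theorem main : ∃ c : ℍ → ZMod 2, ∀ δ : ℍ → ZMod 2, (Function.support δ).Finite →
    ∃ u : ℍ, ‖u‖ = 1 ∧ u ≠ 1 ∧ ∀ x, c (u * x) + δ (u * x) = c x + δ x := by
  obtain ⟨t, ht⟩ := indep
  let q : Finset ℍ → ℍ := fun i => ⟨t (i, 0), t (i, 1), t (i, 2), t (i, 3)⟩
  have q0 : ∀ i, ‖q i‖ ≠ 0 := fun i e =>
    ht.ne_zero (i, 0) (congrArg QuaternionAlgebra.re (norm_eq_zero.1 e : q i = 0))
  let u : Finset ℍ → ℍ := fun i => ‖q i‖⁻¹ • q i
  have u1 : ∀ i, ‖u i‖ = 1 := fun i => by simp [u, norm_smul, inv_mul_cancel₀ (q0 i)]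
  have u2 : ∀ i, u i * star (u i) = 1 := fun i => by
    rw [self_mul_star, normSq_eq_norm_mul_self, u1]
    simp
  have u3 : ∀ i, star (u i) * u i = 1 := fun i => by
    rw [star_mul_self, normSq_eq_norm_mul_self, u1]
    simp
  let δ : Finset ℍ → ℍ → ZMod 2 := fun i x => if x ∈ i then 1 else 0
  let G : Finset ℍ → Equiv.Perm (ℍ × ZMod 2) := fun i =>
    ⟨fun p => (u i * p.1, p.2 + δ i p.1 - δ i (u i * p.1)),
     fun p => (star (u i) * p.1, p.2 - δ i (star (u i) * p.1) + δ i p.1),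
     fun p => by
      ext1 <;> simp [← mul_assoc, u3]
      ring,
     fun p => by
      ext1 <;> simp [← mul_assoc, u2]
      ring⟩
  let Φ := FreeGroup.lift G
  have f1 : ∀ L, ∃ r : ℝ, ∀ p, (Φ (.mk L) p).1 = r • pq q L * p.1 ∧
      (p.1 = 0 → Φ (.mk L) p = p) := by
    intro L
    simp only [Φ, FreeGroup.lift_mk]
    induction L with
    | nil => exact ⟨1, by simp [pq]⟩
    | cons l L ih =>
      obtain ⟨r, hr⟩ := ih
      obtain ⟨i, b⟩ := l
      refine ⟨‖q i‖⁻¹ * r, fun p => ⟨?_, fun e => ?_⟩⟩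
      · rw [List.map_cons, List.prod_cons, Equiv.Perm.mul_apply, pq_cons]
        cases b
        · change star (u i) * _ = _
          rw [(hr p).1]
          simp [u, mul_assoc, smul_smul, mul_comm]
        · change u i * _ = _
          rw [(hr p).1]
          simp [u, mul_assoc, smul_smul, mul_comm]
      · rw [List.map_cons, List.prod_cons, Equiv.Perm.mul_apply, (hr p).2 e]
        cases b <;> ext <;> simp [G, e, Equiv.Perm.inv_def]
  have H : ∀ γ p, (Φ γ p).1 = p.1 → Φ γ p = p := fun γ p h => by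
    obtain ⟨r, hr⟩ := f1 γ.toWord
    rw [FreeGroup.mk_toWord] at hr
    by_cases e : p.1 = 0
    · exact (hr p).2 e
    have b := FreeGroup.isReduced_toWord (x := γ)
    cases c : γ.toWord with
    | nil => simp [FreeGroup.toWord_eq_nil_iff.1 c]
    | cons l L =>
      rw [c] at b hr
      exact absurd (mul_right_cancel₀ e (by rw [← (hr p).1, h, one_mul])) (free t ht l L b r)
  let S : ℍ → ℍ → Prop := fun x y => ∃ γ, (Φ γ (y, 0)).1 = x
  have : ∀ x, S x (epsilon (S x)) := fun x => epsilon_spec ⟨x, 1, by simp⟩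
  choose γ hγ using this
  refine ⟨fun x => (Φ (γ x) (epsilon (S x), 0)).2, fun d hd => ⟨u hd.toFinset, u1 _, ?_, fun x => ?_⟩⟩
  · simpa [pq] using free t ht (hd.toFinset, true) [] (by simp) ‖q hd.toFinset‖⁻¹
  · have e : d = δ hd.toFinset := by
      funext y
      have : ∀ a : ZMod 2, a = if a ≠ 0 then 1 else 0 := by decide
      simpa [δ] using this (d y)
    generalize hd.toFinset = i at e
    have g1 : ∀ a p, Φ (.of i * a) p = G i (Φ a p) := fun a p => by simp [Φ]
    have g2 : S (u i * x) = S x := by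
      funext y
      refine propext ⟨fun ⟨a, h⟩ => ⟨(FreeGroup.of i)⁻¹ * a, ?_⟩, fun ⟨a, h⟩ => ⟨.of i * a, ?_⟩⟩
      · simp only [Φ, map_mul, map_inv, FreeGroup.lift_apply_of, Equiv.Perm.mul_apply] at h ⊢
        change star (u i) * _ = _
        rw [h, ← mul_assoc, u3, one_mul]
      · rw [g1]
        change u i * _ = _
        rw [h]
    have h1 := hγ (u i * x)
    have h2 := H (γ (u i * x) * (.of i * γ x)⁻¹) (Φ (.of i * γ x) (epsilon (S x), 0))
    rw [← Equiv.Perm.mul_apply, ← map_mul, inv_mul_cancel_right, g1] at h2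
    beta_reduce
    rw [g2] at h1 ⊢
    rw [h2 (by rw [h1]; change _ = u i * _; rw [hγ]), e]
    change _ + _ - _ + _ = _
    rw [hγ]
    ring

/-- five points -/
noncomputable def P : Fin 5 → E :=
  ![!₂[0, 0, 0, 0], !₂[1, 0, 0, 0], !₂[0, 2, 0, 0], !₂[0, 0, 4, 0], !₂[0, 0, 0, 8]]

/-- squared distances -/
def D (i j : Fin 5) : ℕ := if i = j then 0 else ![0, 1, 4, 16, 64] i + ![0, 1, 4, 16, 64] j

theorem dsq (x y : E) : dist x y ^ 2 =
    (x 0 - y 0) ^ 2 + (x 1 - y 1) ^ 2 + (x 2 - y 2) ^ 2 + (x 3 - y 3) ^ 2 := by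
  rw [EuclideanSpace.dist_sq_eq]
  simp [Real.dist_eq, Fin.sum_univ_four]

theorem PD (i j : Fin 5) : dist (P i) (P j) ^ 2 = D i j := by
  rw [dsq]
  fin_cases i <;> fin_cases j <;> simp [P, D] <;> norm_num

theorem rigid : ∀ σ : Fin 5 → Fin 5, (∀ i j, D (σ i) (σ j) = D i j) → ∀ i, σ i = i := by
  decide +kernel

theorem result : IsLeast {k | 1 ≤ k ∧ ∃ c : E → Fin k, Dist c} 2 ∧
    ∃ c : E → Fin 2, ∀ c' : E → Fin 2, {x | c' x ≠ c x}.Finite → ¬ Dist c' := by
  refine ⟨⟨⟨by norm_num, fun x => if x ∈ Set.range P then 1 else 0, fun g hg => ?_⟩, ?_⟩, ?_⟩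
  · have : ∀ i, ∃ j, P j = g (P i) := fun i => by
      by_contra h
      have := hg (P i)
      beta_reduce at this
      rw [if_neg (show g (P i) ∉ Set.range P from h), if_pos ⟨i, rfl⟩] at this
      exact absurd this (by decide)
    choose σ hσ using this
    have := rigid σ fun i j => by
      have := PD (σ i) (σ j)
      rw [hσ, hσ, g.dist_eq, PD] at this
      exact_mod_cast this.symm
    have h : ∀ x i, dist (g x) (P i) ^ 2 = dist x (P i) ^ 2 := fun x i => by
      rw [← g.dist_eq x, ← hσ, this]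
    ext x k
    have h0 := h x 0
    have h1 := h x 1
    have h2 := h x 2
    have h3 := h x 3
    have h4 := h x 4
    simp [dsq, P] at h0 h1 h2 h3 h4
    change g x k = x k
    fin_cases k <;> simp <;> linarith
  · rintro k ⟨h1, c, hc⟩
    by_contra h
    obtain rfl : k = 1 := by omega
    have := hc (LinearIsometryEquiv.neg ℝ).toIsometryEquiv fun _ => Subsingleton.elim _ _
    have : -P 1 0 = P 1 0 := congrArg (fun g : E ≃ᵢ E => g (P 1) 0) this
    simp [P] at this
    linarith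
  · obtain ⟨c, hc⟩ := main
    let ψ := linearIsometryEquivTuple.toIsometryEquiv
    let a : (E → Fin 2) → E → ZMod 2 := id
    refine ⟨fun x => c (ψ.symm x), fun c' h hd => ?_⟩
    obtain ⟨u, u1, u2, u3⟩ := hc (fun y => a c' (ψ y) - c y)
      ((h.preimage ψ.injective.injOn).subset fun y hy e => hy (sub_eq_zero.2 (by
        have e : a c' (ψ y) = c (ψ.symm (ψ y)) := e
        simpa using e)))
    have u0 : u ≠ 0 := by
      rintro rfl
      simp at u1
    let m : ℍ ≃ᵢ ℍ := ⟨Equiv.mulLeft₀ u u0, Isometry.of_dist_eq fun x y => by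
      simp [dist_eq_norm, ← mul_sub, u1]⟩
    have := hd ((ψ.symm.trans m).trans ψ) fun x => by
      change a c' (ψ (u * ψ.symm x)) = a c' x
      simpa using u3 (ψ.symm x)
    have : ψ (u * ψ.symm (ψ 1)) = ψ 1 := congrArg (fun g : E ≃ᵢ E => g (ψ 1)) this
    exact u2 (by simpa using this)

end Pool.Agent.Results.MP_d3aff2_co.Four
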